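import Pool.Agent.Helper79.TL.Psl

/-!
# TL-S1: the generators permute the 21 points and the 21 frames compatibly
-/

set_option autoImplicit false

open Matrix
open scoped MatrixGroups

namespace Pool.Agent.Helper79.TL.S1

set_option maxRecDepth 100000 in
lemma pts : ∀ (i : Fin 11) (p : Fin 21), ∃ c : F4, c ≠ 0 ∧
    AAm i *ᵥ pt p = c • pt (sgf i p) := by
  decide +kernel

set_option maxRecDepth 100000 in
lemma frs : ∀ (i : Fin 11) (p : Fin 21) (k : Fin 6), ∃ k',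
    toM (cgen i) *ᵥ fr p k = fr (sgf i p) k' ∨ toM (cgen i) *ᵥ fr p k = -fr (sgf i p) k' := by
  decide +kernel

set_option maxRecDepth 100000 in
lemma fr_inj : ∀ (p : Fin 21) (k l : Fin 6), (fr p k = fr p l ∨ fr p k = -fr p l) → k = l := by
  decide +kernel

/-- TL-S1 -/
theorem compat_gen (i : Fin 11) : Compat (AA i) (genU i) (sg i) := by
  refine ⟨fun p => pts i p, fun p k => ?_⟩
  rw [genU_val]
  exact frs i p k

lemma compat_one : Compat 1 1 1 := by
  refine ⟨fun i => ⟨1, one_ne_zero, ?_⟩, fun i k => ⟨k, Or.inl ?_⟩⟩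
  · rw [Matrix.SpecialLinearGroup.coe_one, Matrix.one_mulVec, one_smul]
    rfl
  · rw [Units.val_one, Matrix.one_mulVec]
    rfl

lemma compat_mul {A B : SL(3, F4)} {g h : U} {σ τ : Equiv.Perm (Fin 21)} (h1 : Compat A g σ)
    (h2 : Compat B h τ) : Compat (A * B) (g * h) (σ * τ) := by
  refine ⟨fun i => ?_, fun i k => ?_⟩
  · obtain ⟨c, hc, h3⟩ := h2.1 i
    obtain ⟨c', hc', h4⟩ := h1.1 (τ i)
    refine ⟨c * c', mul_ne_zero hc hc', ?_⟩
    rw [Matrix.SpecialLinearGroup.coe_mul, ← Matrix.mulVec_mulVec, h3, Matrix.mulVec_smul, h4,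
      smul_smul]
    rfl
  · obtain ⟨k', h3⟩ := h2.2 i k
    obtain ⟨k'', h4⟩ := h1.2 (τ i) k'
    refine ⟨k'', ?_⟩
    rw [Units.val_mul, ← Matrix.mulVec_mulVec, Equiv.Perm.mul_apply]
    rcases h3 with h3 | h3
    · rw [h3]
      exact h4
    · rw [h3, Matrix.mulVec_neg]
      rcases h4 with h4 | h4
      · rw [h4]; exact Or.inr rfl
      · rw [h4, neg_neg]; exact Or.inl rfl

lemma compat_inv {A : SL(3, F4)} {g : U} {σ : Equiv.Perm (Fin 21)} (h1 : Compat A g σ) :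
    Compat A⁻¹ g⁻¹ σ⁻¹ := by
  refine ⟨fun i => ?_, fun i k => ?_⟩
  · obtain ⟨c, hc, h3⟩ := h1.1 (σ⁻¹ i)
    refine ⟨c⁻¹, inv_ne_zero hc, ?_⟩
    have e : σ (σ⁻¹ i) = i := by rw [← Equiv.Perm.mul_apply, mul_inv_cancel]; rfl
    rw [e] at h3
    have h4 : ((A⁻¹ : SL(3, F4)) : Matrix (Fin 3) (Fin 3) F4) *ᵥ
        ((A : Matrix (Fin 3) (Fin 3) F4) *ᵥ pt (σ⁻¹ i)) = pt (σ⁻¹ i) := by
      rw [Matrix.mulVec_mulVec, ← Matrix.SpecialLinearGroup.coe_mul, inv_mul_cancel,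
        Matrix.SpecialLinearGroup.coe_one, Matrix.one_mulVec]
    rw [h3, Matrix.mulVec_smul] at h4
    rw [← h4, smul_smul, inv_mul_cancel₀ hc, one_smul]
  · have e : σ (σ⁻¹ i) = i := by rw [← Equiv.Perm.mul_apply, mul_inv_cancel]; rfl
    have h2 := h1.2 (σ⁻¹ i)
    rw [e] at h2
    choose φ hφ using h2
    have hg : ∀ v : Fin 6 → ZMod 3, ((g⁻¹ : U) : Matrix (Fin 6) (Fin 6) (ZMod 3)) *ᵥ
        ((g : Matrix (Fin 6) (Fin 6) (ZMod 3)) *ᵥ v) = v := fun v => by
      rw [Matrix.mulVec_mulVec, ← Units.val_mul, inv_mul_cancel, Units.val_one,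
        Matrix.one_mulVec]
    have hinj : Function.Injective φ := by
      intro k l hkl
      apply fr_inj (σ⁻¹ i) k l
      have a1 := hφ k
      have a2 := hφ l
      rw [hkl] at a1
      rw [← hg (fr (σ⁻¹ i) k), ← hg (fr (σ⁻¹ i) l)]
      rcases a1 with a1 | a1 <;> rcases a2 with a2 | a2
      · left; rw [a1, a2]
      · right; rw [a1, a2, Matrix.mulVec_neg, neg_neg]
      · right; rw [a1, a2, Matrix.mulVec_neg]
      · left; rw [a1, a2]
    obtain ⟨l, hl⟩ := (Finite.injective_iff_surjective.1 hinj) k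
    have a1 := hφ l
    rw [hl] at a1
    refine ⟨l, ?_⟩
    rcases a1 with a1 | a1
    · left
      rw [← a1, hg]
    · right
      have a2 : fr i k = -((g : Matrix (Fin 6) (Fin 6) (ZMod 3)) *ᵥ fr (σ⁻¹ i) l) := by
        rw [a1, neg_neg]
      rw [a2, Matrix.mulVec_neg, hg]

lemma compat_Sc : Compat Sc 1 1 := by
  refine ⟨fun i => ?_, compat_one.2⟩
  refine ⟨F4.om, by decide, ?_⟩
  revert i
  change ∀ i : Fin 21, (m4 !![2, 0, 0; 0, 2, 0; 0, 0, 2]) *ᵥ pt i = F4.om • pt i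
  decide +kernel

/-- TL-S1 -/
theorem compat_EE : ∀ x ∈ EE, Compat x.1 x.2.1 x.2.2 := by
  intro x hx
  unfold EE at hx
  induction hx using Subgroup.closure_induction with
  | mem x hx =>
    rcases hx with ⟨i, rfl⟩ | hx
    · exact compat_gen i
    · rw [Set.mem_singleton_iff] at hx
      subst hx
      exact compat_Sc
  | one => exact compat_one
  | mul x y _ _ h1 h2 => exact compat_mul h1 h2
  | inv x _ h1 => exact compat_inv h1

end Pool.Agent.Helper79.TL.S1
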